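import Mathlib

set_option autoImplicit false

/-!
# Combinatorial lemmas for the division of a cake with several islands
-/

namespace Pool.Agent.Q122.Cake

open Finset

/-- some `p`-subset has at least the average weight -/
theorem avg_subset {ι : Type*} [DecidableEq ι] (w : ι → ℝ) (p : ℕ) : ∀ (m : ℕ) (M : Finset ι),
    M.card = m → p ≤ m →
    ∃ R ⊆ M, R.card = p ∧ (p : ℝ) * ∑ i ∈ M, w i ≤ (m : ℝ) * ∑ i ∈ R, w i := by
  intro m
  induction m with
  | zero =>
    intro M hM hp
    obtain rfl : p = 0 := by omega
    exact ⟨∅, by simp, by simp, by simp⟩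
  | succ m ih =>
    intro M hM hp
    rcases Nat.lt_or_ge p (m + 1) with hlt | hge
    · rcases Nat.eq_zero_or_pos p with rfl | hp0
      · exact ⟨∅, by simp, by simp, by simp⟩
      · have hne : M.Nonempty := by
          rw [← card_pos]; omega
        obtain ⟨x, hx, hmin⟩ := exists_min_image M w hne
        have hc : (M.erase x).card = m := by rw [card_erase_of_mem hx, hM]; rfl
        obtain ⟨R, hR, hRc, hRs⟩ := ih (M.erase x) hc (by omega)
        refine ⟨R, hR.trans (erase_subset _ _), hRc, ?_⟩
        have h1 : (M.card : ℝ) * w x ≤ ∑ i ∈ M, w i := by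
          rw [← nsmul_eq_mul, ← sum_const]
          exact sum_le_sum fun i hi => hmin i hi
        have h2 : ∑ i ∈ M, w i = w x + ∑ i ∈ M.erase x, w i := (add_sum_erase M w hx).symm
        rw [hM] at h1
        push_cast at h1 ⊢
        have hm : (0 : ℝ) < m := by
          have : 0 < m := by omega
          exact_mod_cast this
        have hp' : (0 : ℝ) < p := by exact_mod_cast hp0
        set SM := ∑ i ∈ M, w i
        set SE := ∑ i ∈ M.erase x, w i
        set SR := ∑ i ∈ R, w i
        -- m SM <= (m+1) SE
        have h3 : (m : ℝ) * SM ≤ (m + 1) * SE := by nlinarith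
        have h4 : (m : ℝ) * (p * SM) ≤ m * ((m + 1) * SR) := by nlinarith
        exact le_of_mul_le_mul_left h4 hm
    · obtain rfl : p = m + 1 := by omega
      exact ⟨M, Subset.refl _, hM, by simp⟩

/-- exchange: from a low set and a set which is not low to a minimal passage -/
theorem exch {ι : Type*} [DecidableEq ι] (M : Finset ι) (s : ℕ) (low : Finset ι → Prop)
    (hmono : ∀ S T, S ⊆ T → low T → low S) (S0 : Finset ι) (hS0 : S0 ⊆ M) (hc0 : S0.card = s)
    (hl0 : low S0) (R : Finset ι) (hR : R ⊆ M) (hRc : R.card = s + 1) (hRl : ¬ low R) :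
    ∃ S ⊆ M, S.card = s ∧ low S ∧ ∃ y ∈ M, y ∉ S ∧ ¬ low (insert y S) := by
  classical
  by_contra hcon
  push Not at hcon
  -- hcon : for low S of card s, all y outside give low sets
  obtain ⟨z, hz⟩ : R.Nonempty := by rw [← card_pos]; omega
  set R' := R.erase z with hR'
  have hR'c : R'.card = s := by rw [hR', card_erase_of_mem hz, hRc]; rfl
  have hR'M : R' ⊆ M := (erase_subset _ _).trans hR
  have hlow : low R' := by
    set fam := (M.powerset).filter (fun S => S.card = s ∧ low S) with hfam
    have hne : fam.Nonempty := ⟨S0, by simp [hfam, hS0, hc0, hl0]⟩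
    obtain ⟨S, hS, hmax⟩ := exists_max_image fam (fun S => (S ∩ R').card) hne
    have hS' := hS
    rw [hfam, mem_filter, mem_powerset] at hS'
    obtain ⟨hSM, hSc, hSl⟩ := hS'
    by_cases hsub : R' ⊆ S
    · have : R' = S := eq_of_subset_of_card_le hsub (by omega)
      rw [this]; exact hSl
    · exfalso
      obtain ⟨y, hyR, hyS⟩ := not_subset.1 hsub
      have hns : ¬ S ⊆ R' := by
        intro h
        have : S = R' := eq_of_subset_of_card_le h (by omega)
        exact hyS (this ▸ hyR)
      obtain ⟨x, hxS, hxR⟩ := not_subset.1 hns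
      have hlow2 := hcon S hSM hSc hSl y (hR'M hyR) hyS
      set T := (insert y S).erase x with hT
      have hTl : low T := hmono _ _ (erase_subset _ _) hlow2
      have hTM : T ⊆ M := (erase_subset _ _).trans (insert_subset (hR'M hyR) hSM)
      have hTc : T.card = s := by
        rw [hT, card_erase_of_mem (mem_insert_of_mem hxS), card_insert_of_notMem hyS, hSc]; rfl
      have hTf : T ∈ fam := by rw [hfam, mem_filter, mem_powerset]; exact ⟨hTM, hTc, hTl⟩
      have h1 := hmax T hTf
      have h2 : (S ∩ R').card < (T ∩ R').card := by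
        apply card_lt_card
        rw [ssubset_iff_of_subset]
        · exact ⟨y, by
            rw [mem_inter, hT, mem_erase]
            exact ⟨⟨fun h => hxR (h ▸ hyR), mem_insert_self _ _⟩, hyR⟩, by
            rw [mem_inter]; exact fun h => hyS h.1⟩
        · intro a ha
          rw [mem_inter] at ha
          rw [mem_inter, hT, mem_erase]
          exact ⟨⟨fun h => hxR (h ▸ ha.2), mem_insert_of_mem ha.1⟩, ha.2⟩
      exact absurd h1 (not_le.2 h2)
  have hins : insert z R' = R := insert_erase hz
  have := hcon R' hR'M hR'c hlow z (hR hz) (notMem_erase _ _)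
  rw [hins] at this
  exact hRl this

/-- A nonempty envy-free matching: if there are at most as many agents as bundles and every bundle
has a neighbour, then some nonempty set of bundles is matched with agents such that the other agents
are not adjacent to these bundles. -/
theorem envy_free {K A : Type*} [Fintype K] [DecidableEq K] [DecidableEq A] [Nonempty K]
    (N : K → Finset A) (J : Finset A) (hN : ∀ k, N k ⊆ J) (hne : ∀ k, (N k).Nonempty)
    (hcard : J.card ≤ Fintype.card K) :
    ∃ (Y : Finset K) (f : K → A), Y.Nonempty ∧ Set.InjOn f Y ∧ (∀ k ∈ Y, f k ∈ N k) ∧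
      (∀ k ∈ Y, N k ⊆ Y.image f) := by
  classical
  set fam := (univ : Finset (Finset K)).filter
    (fun Y => Y.Nonempty ∧ (Y.biUnion N).card ≤ Y.card) with hfam
  have huniv : (univ : Finset K) ∈ fam := by
    rw [hfam, mem_filter]
    refine ⟨mem_univ _, univ_nonempty, ?_⟩
    refine (card_le_card ?_).trans (hcard.trans (le_of_eq card_univ.symm))
    intro a ha
    rw [mem_biUnion] at ha
    obtain ⟨k, _, hk⟩ := ha
    exact hN k hk
  obtain ⟨Y, hY, hmin⟩ := exists_min_image fam card ⟨_, huniv⟩
  have hY' := hY
  rw [hfam, mem_filter] at hY'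
  obtain ⟨_, hYne, hYc⟩ := hY'
  have hprop : ∀ Z : Finset K, Z ⊂ Y → Z.Nonempty → Z.card < (Z.biUnion N).card := by
    intro Z hZ hZne
    by_contra hcon
    push Not at hcon
    have : Z ∈ fam := by rw [hfam, mem_filter]; exact ⟨mem_univ _, hZne, hcon⟩
    exact absurd (hmin Z this) (not_le.2 (card_lt_card hZ))
  have hYeq : (Y.biUnion N).card = Y.card := by
    refine le_antisymm hYc ?_
    obtain ⟨y, hy⟩ := hYne
    by_cases hZ : (Y.erase y).Nonempty
    · have h1 := hprop (Y.erase y) (erase_ssubset hy) hZ
      have h2 : ((Y.erase y).biUnion N).card ≤ (Y.biUnion N).card :=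
        card_le_card (biUnion_subset_biUnion_of_subset_left N (erase_subset _ _))
      rw [card_erase_of_mem hy] at h1
      omega
    · rw [not_nonempty_iff_eq_empty] at hZ
      have h1 : Y.card = 1 := by
        have := card_erase_of_mem hy
        rw [hZ, card_empty] at this
        have h0 : 0 < Y.card := card_pos.2 ⟨y, hy⟩
        omega
      rw [h1]
      have : (N y).card ≤ (Y.biUnion N).card := card_le_card (subset_biUnion_of_mem N hy)
      have h2 := card_pos.2 (hne y)
      omega
  have hHall : ∀ Z : Finset {k // k ∈ Y}, Z.card ≤ (Z.biUnion (fun k => N k.1)).card := by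
    intro Z
    rcases Z.eq_empty_or_nonempty with rfl | hZne
    · simp
    · set Z' := Z.map (Function.Embedding.subtype _) with hZ'
      have hc : Z'.card = Z.card := card_map _
      have hb : Z'.biUnion N = Z.biUnion (fun k => N k.1) := by
        ext a
        simp [hZ']
      have hsub : Z' ⊆ Y := by
        intro k hk
        rw [hZ', mem_map] at hk
        obtain ⟨x, _, rfl⟩ := hk
        exact x.2
      rw [← hb, ← hc]
      rcases eq_or_ssubset_of_subset hsub with h | h
      · rw [h, hYeq]
      · refine (hprop Z' h ?_).le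
        rw [hZ']; simpa using hZne
  obtain ⟨g, hginj, hg⟩ := (all_card_le_biUnion_card_iff_exists_injective
    (fun k : {k // k ∈ Y} => N k.1)).1 hHall
  obtain ⟨y0, hy0⟩ := hYne
  set f : K → A := fun k => if h : k ∈ Y then g ⟨k, h⟩ else g ⟨y0, hy0⟩ with hf
  have hfY : ∀ k (h : k ∈ Y), f k = g ⟨k, h⟩ := by
    intro k h
    rw [hf]; simp [h]
  refine ⟨Y, f, ⟨y0, hy0⟩, ?_, ?_, ?_⟩
  · intro a ha b hb hab
    rw [hfY a (mem_coe.1 ha), hfY b (mem_coe.1 hb)] at hab
    have := hginj hab
    simpa using this
  · intro k hk
    rw [hfY k hk]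
    exact hg ⟨k, hk⟩
  · have himg : Y.image f ⊆ Y.biUnion N := by
      intro a ha
      rw [mem_image] at ha
      obtain ⟨k, hk, rfl⟩ := ha
      rw [mem_biUnion]
      exact ⟨k, hk, by rw [hfY k hk]; exact hg ⟨k, hk⟩⟩
    have himgc : (Y.image f).card = Y.card := by
      apply card_image_of_injOn
      intro a ha b hb hab
      rw [hfY a (mem_coe.1 ha), hfY b (mem_coe.1 hb)] at hab
      have := hginj hab
      simpa using this
    have heq : Y.image f = Y.biUnion N := eq_of_subset_of_card_le himg (by omega)
    intro k hk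
    rw [heq]
    exact subset_biUnion_of_mem N hk

/-- disjoint subsets of prescribed sizes -/
theorem disjoint_family {ι : Type*} [DecidableEq ι] : ∀ (n : ℕ) (c : Fin n → ℕ) (M : Finset ι),
    ∑ k, c k ≤ M.card → ∃ Y : Fin n → Finset ι, (∀ k, Y k ⊆ M ∧ (Y k).card = c k) ∧
      Pairwise (fun k l => Disjoint (Y k) (Y l)) := by
  intro n
  induction n with
  | zero =>
    intro c M _
    exact ⟨fun k => k.elim0, fun k => k.elim0, fun k => k.elim0⟩
  | succ n ih =>
    intro c M h
    rw [Fin.sum_univ_succ] at h
    obtain ⟨Y0, hY0, hc0⟩ := exists_subset_card_eq (show c 0 ≤ M.card by omega)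
    obtain ⟨Y, hY, hd⟩ := ih (fun k => c k.succ) (M \ Y0) (by
      rw [card_sdiff_of_subset hY0]; omega)
    refine ⟨Fin.cons Y0 Y, ?_, ?_⟩
    · intro k
      refine Fin.cases ?_ (fun k => ?_) k
      · exact ⟨by simpa using hY0, by simpa using hc0⟩
      · exact ⟨by simpa using (hY k).1.trans sdiff_subset, by simpa using (hY k).2⟩
    · intro k l
      refine Fin.cases ?_ (fun k => ?_) k
      · refine Fin.cases ?_ (fun l => ?_) l
        · intro h; exact absurd rfl h
        · intro _
          simp only [Fin.cons_zero, Fin.cons_succ]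
          exact disjoint_of_subset_right (hY l).1 disjoint_sdiff
      · refine Fin.cases ?_ (fun l => ?_) l
        · intro _
          simp only [Fin.cons_zero, Fin.cons_succ]
          exact (disjoint_of_subset_right (hY k).1 disjoint_sdiff).symm
        · intro h
          simp only [Fin.cons_succ]
          exact hd (fun hkl => h (by rw [hkl]))

end Pool.Agent.Q122.Cake
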