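import Pool.Agent.Q122.Cake.Cut

set_option autoImplicit false
set_option linter.unusedSectionVars false

/-!
# The core of the proof: induction on the number of agents

The agents with `B` get the value `l + 1` with at most `l + 1` pieces, the others get the value `1`
with at most `l + 2` pieces.
-/

namespace Pool.Agent.Q122.Cake

open Finset MeasureTheory

variable {A ι : Type*} [DecidableEq A] [DecidableEq ι]

/-- the value of a set for an agent -/
noncomputable def val (v : A → ℝ → ℝ) (a : A) (I : Set ℝ) : ℝ := ∫ x in I, v a x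

/-- an instance of the induction -/
structure Inst (v : A → ℝ → ℝ) (B : A → Prop) (l n r : ℕ) (J : Finset A) (M : Finset ι)
    (I : ι → Set ℝ) : Prop where
  hr : r + 1 ≤ n
  hJ : J.card = n
  hM : M.card = n * l + r + 1
  hI : ∀ i, (I i).OrdConnected ∧ ∃ p q : ℝ, I i ⊆ Set.Icc p q
  hB : ∀ a ∈ J, B a → (n * (l + 1) + r : ℝ) ≤ ∑ i ∈ M, val v a (I i)
  hA : ∀ a ∈ J, ¬ B a → (n : ℝ) ≤ ∑ i ∈ M, val v a (I i)

/-- a solution -/
def Good (v : A → ℝ → ℝ) (B : A → Prop) (l : ℕ) (J : Finset A) (M : Finset ι)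
    (I : ι → Set ℝ) : Prop :=
  ∃ (F : A → Finset ι) (W : A → ι → Set ℝ),
    (∀ a ∈ J, (∀ i, (W a i).OrdConnected ∧ W a i ⊆ I i) ∧ (∀ i, i ∉ F a → W a i = ∅) ∧
      (∀ i, i ∉ M → W a i = ∅) ∧
      (B a → (F a).card ≤ l + 1 ∧ (l + 1 : ℝ) ≤ ∑ i ∈ F a, val v a (W a i)) ∧
      (¬ B a → (F a).card ≤ l + 2 ∧ (1 : ℝ) ≤ ∑ i ∈ F a, val v a (W a i))) ∧
    (∀ a ∈ J, ∀ b ∈ J, a ≠ b → ∀ i, Disjoint (W a i) (W b i))

section

variable (v : A → ℝ → ℝ) (hv : ∀ a, Integrable (v a)) (hv0 : ∀ a x, 0 ≤ v a x)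

include hv0 in
theorem val_nonneg (a : A) (I : Set ℝ) : 0 ≤ val v a I :=
  integral_nonneg fun x => hv0 a x

@[simp] theorem val_empty (a : A) : val v a ∅ = 0 := by
  unfold val; simp

include hv in
theorem val_split (a : A) (I : Set ℝ) (t : ℝ) :
    val v a I = val v a (I ∩ Set.Iic t) + val v a (I ∩ Set.Ioi t) := by
  unfold val
  have h : I ∩ Set.Ioi t = I \ Set.Iic t := by
    ext x; simp
  rw [h]
  exact (integral_inter_add_sdiff measurableSet_Iic (hv a).integrableOn).symm

/-- the threshold of an agent for bundles with `s` whole islands and a part of an island -/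
noncomputable def thr (B : A → Prop) (s : ℕ) (a : A) : ℝ := by
  classical exact if B a then (s + 1 : ℝ) else 1

theorem thr_B {B : A → Prop} {s : ℕ} {a : A} (h : B a) : thr B s a = s + 1 := by
  unfold thr; simp [h]

theorem thr_A {B : A → Prop} {s : ℕ} {a : A} (h : ¬ B a) : thr B s a = 1 := by
  unfold thr; simp [h]

include hv hv0 in
/-- first step: some set of `s` islands is low for everybody -/
theorem slide (B : A → Prop) (l n r : ℕ) (J : Finset A) (M : Finset ι) (I : ι → Set ℝ)
    (h : Inst v B l n r J M I) (s : ℕ) (hn : 2 ≤ n)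
    (hs : (s = l ∧ r + 1 < n) ∨ (s = l + 1 ∧ r + 1 = n))
    (hlow : ∃ S ⊆ M, S.card = s ∧ ∀ a ∈ J, ∑ i ∈ S, val v a (I i) < thr B s a)
    (ih : ∀ (r' : ℕ) (J' : Finset A) (M' : Finset ι) (I' : ι → Set ℝ),
      Inst v B l (n - 1) r' J' M' I' → Good v B l J' M' I') : Good v B l J M I := by
  classical
  obtain ⟨hr, hJ, hM, hI, hB, hA⟩ := h
  have hJne : J.Nonempty := by rw [← card_pos]; omega
  -- numerical facts
  have f3 : s + 1 ≤ M.card := by
    rw [hM]
    rcases hs with ⟨rfl, _⟩ | ⟨rfl, h2⟩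
    · nlinarith
    · nlinarith
  have f1 : M.card ≤ n * (l + 1) + r := by
    rw [hM]; nlinarith
  have f2 : M.card ≤ (s + 1) * n := by
    rw [hM]
    rcases hs with ⟨rfl, _⟩ | ⟨rfl, h2⟩ <;> nlinarith
  have hmpos : 0 < M.card := by omega
  -- a set which is not low
  obtain ⟨a0, ha0⟩ := hJne
  obtain ⟨R, hRM, hRc, hRs⟩ := avg_subset (fun i => val v a0 (I i)) (s + 1) M.card M rfl f3
  have hmR : (0 : ℝ) < (M.card : ℝ) := by exact_mod_cast hmpos
  have hRl : ¬ (∀ a ∈ J, ∑ i ∈ R, val v a (I i) < thr B s a) := by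
    intro hcon
    have h1 := hcon a0 ha0
    by_cases hb : B a0
    · rw [thr_B hb] at h1
      have h2 := hB a0 ha0 hb
      have f1' : (M.card : ℝ) ≤ n * (l + 1) + r := by exact_mod_cast f1
      have h3 : ((s + 1 : ℕ) : ℝ) * (M.card : ℝ) ≤
          ((s + 1 : ℕ) : ℝ) * ∑ i ∈ M, val v a0 (I i) :=
        mul_le_mul_of_nonneg_left (f1'.trans h2) (by positivity)
      push_cast at h3 hRs
      nlinarith
    · rw [thr_A hb] at h1
      have h2 := hA a0 ha0 hb
      have f2' : (M.card : ℝ) ≤ (s + 1) * n := by exact_mod_cast f2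
      have h3 : ((s + 1 : ℕ) : ℝ) * (n : ℝ) ≤
          ((s + 1 : ℕ) : ℝ) * ∑ i ∈ M, val v a0 (I i) :=
        mul_le_mul_of_nonneg_left h2 (by positivity)
      push_cast at h3 hRs
      nlinarith
  obtain ⟨S0, hS0, hS0c, hS0l⟩ := hlow
  obtain ⟨S, hSM, hSc, hSl, y, hyM, hyS, hyl⟩ := exch M s
    (fun T => ∀ a ∈ J, ∑ i ∈ T, val v a (I i) < thr B s a)
    (fun T T' hTT h a ha => lt_of_le_of_lt
      (sum_le_sum_of_subset_of_nonneg hTT fun i _ _ => val_nonneg v hv0 a (I i)) (h a ha))
    S0 hS0 hS0c hS0l R hRM hRc hRl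
  push Not at hyl
  obtain ⟨a1, ha1, ha1l⟩ := hyl
  rw [sum_insert hyS] at ha1l
  obtain ⟨p, q, hpq⟩ := (hI y).2
  obtain ⟨t, ht1, b, hbJ, ht2⟩ := cut J ⟨a0, ha0⟩ v hv (I y) (hI y).1 p q hpq
    (fun a => ∑ i ∈ S, val v a (I i)) (thr B s) hSl ⟨a1, ha1, by
      have : val v a1 (I y) = ∫ x in I y, v a1 x := rfl
      linarith⟩
  set P : Set ℝ := I y ∩ Set.Iic t with hP
  set Q : Set ℝ := I y ∩ Set.Ioi t with hQ
  have hvP : ∀ a, (∫ x in P, v a x) = val v a P := fun a => rfl
  simp only [hvP] at ht1 ht2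
  have hPo : P.OrdConnected := (hI y).1.inter Set.ordConnected_Iic
  have hQo : Q.OrdConnected := (hI y).1.inter Set.ordConnected_Ioi
  -- the pieces of `b`
  set Wb : ι → Set ℝ := fun i => if i = y then P else I i with hWb
  have hWby : Wb y = P := by simp [hWb]
  have hWbS : ∀ i ∈ S, Wb i = I i := by
    intro i hi
    have : i ≠ y := fun h => hyS (h ▸ hi)
    simp [hWb, this]
  have hsumb : ∑ i ∈ insert y S, val v b (Wb i) = (∑ i ∈ S, val v b (I i)) + val v b P := by
    rw [sum_insert hyS, hWby, add_comm]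
    congr 1
    exact sum_congr rfl fun i hi => by rw [hWbS i hi]
  have hcard : (insert y S).card = s + 1 := by rw [card_insert_of_notMem hyS, hSc]
  obtain ⟨Rb, hRb, hRbB, hRbA⟩ : ∃ Rb ⊆ insert y S,
      (B b → Rb.card ≤ l + 1 ∧ (l + 1 : ℝ) ≤ ∑ i ∈ Rb, val v b (Wb i)) ∧
      (¬ B b → Rb.card ≤ l + 2 ∧ (1 : ℝ) ≤ ∑ i ∈ Rb, val v b (Wb i)) := by
    by_cases hb : B b
    · rw [thr_B hb, ← hsumb] at ht2
      rcases hs with ⟨rfl, _⟩ | ⟨rfl, _⟩
      · exact ⟨insert y S, Subset.refl _, fun _ => ⟨hcard.le, ht2⟩, fun h => absurd hb h⟩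
      · obtain ⟨Rb, h1, h2, h3⟩ := avg_subset (fun i => val v b (Wb i)) (l + 1) (l + 1 + 1)
          (insert y S) hcard (by omega)
        refine ⟨Rb, h1, fun _ => ⟨h2.le, ?_⟩, fun h => absurd hb h⟩
        push_cast at h3 ht2
        have hl0 : (0 : ℝ) ≤ l := Nat.cast_nonneg _
        by_contra hcon
        push Not at hcon
        have h4 : ((l : ℝ) + 1) * (l + 1 + 1) ≤ (l + 1 + 1) * ∑ i ∈ Rb, val v b (Wb i) := by
          refine le_trans ?_ h3
          exact mul_le_mul_of_nonneg_left ht2 (by linarith)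
        nlinarith
    · rw [thr_A hb, ← hsumb] at ht2
      refine ⟨insert y S, Subset.refl _, fun h => absurd h hb, fun _ => ⟨?_, ht2⟩⟩
      rw [hcard]
      rcases hs with ⟨rfl, _⟩ | ⟨rfl, _⟩ <;> omega
  -- the remaining instance
  set I' : ι → Set ℝ := Function.update I y Q with hI'
  have hI'y : I' y = Q := by simp [hI']
  have hI'n : ∀ i, i ≠ y → I' i = I i := fun i hi => by simp [hI', hi]
  have hyMS : y ∈ M \ S := by rw [mem_sdiff]; exact ⟨hyM, hyS⟩
  have hrest : ∀ a, ∑ i ∈ M \ S, val v a (I' i) =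
      (∑ i ∈ M, val v a (I i)) - ((∑ i ∈ S, val v a (I i)) + val v a P) := by
    intro a
    have h1 : ∑ i ∈ M \ S, val v a (I i) + ∑ i ∈ S, val v a (I i) = ∑ i ∈ M, val v a (I i) :=
      sum_sdiff hSM
    have h2 : ∑ i ∈ M \ S, val v a (I i) = val v a (I y) +
        ∑ i ∈ (M \ S).erase y, val v a (I i) :=
      (add_sum_erase (M \ S) (fun i => val v a (I i)) hyMS).symm
    have h3 : ∑ i ∈ M \ S, val v a (I' i) = val v a (I' y) +
        ∑ i ∈ (M \ S).erase y, val v a (I' i) :=
      (add_sum_erase (M \ S) (fun i => val v a (I' i)) hyMS).symm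
    have h4 : ∑ i ∈ (M \ S).erase y, val v a (I' i) = ∑ i ∈ (M \ S).erase y, val v a (I i) :=
      sum_congr rfl fun i hi => by rw [hI'n i (ne_of_mem_erase hi)]
    have h5 := val_split v hv a (I y) t
    rw [h3, h4, hI'y]
    linarith
  have hinst : Inst v B l (n - 1) (if s = l then r else r - 1) (J.erase b) (M \ S) I' := by
    obtain ⟨k, rfl⟩ : ∃ k, n = k + 2 := ⟨n - 2, by omega⟩
    have hk : k + 2 - 1 = k + 1 := rfl
    rw [hk]
    have hMS : (M \ S).card = M.card - s := by rw [card_sdiff_of_subset hSM, hSc]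
    refine ⟨?_, ?_, ?_, ?_, ?_, ?_⟩
    · rcases hs with ⟨rfl, h2⟩ | ⟨rfl, h2⟩
      · simp; omega
      · simp; omega
    · rw [card_erase_of_mem hbJ, hJ]; rfl
    · rw [hMS, hM]
      rcases hs with ⟨rfl, h2⟩ | ⟨rfl, h2⟩
      · simp only [if_true]
        have : (k + 2) * s = (k + 1) * s + s := by ring
        omega
      · have h3 : ¬ (l + 1 = l) := by omega
        simp only [h3, if_false]
        have : (k + 2) * l = (k + 1) * l + l := by ring
        omega
    · intro i
      by_cases hi : i = y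
      · subst hi
        rw [hI'y]
        exact ⟨hQo, p, q, Set.inter_subset_left.trans hpq⟩
      · rw [hI'n i hi]; exact hI i
    · intro a ha hb
      have haJ := mem_of_mem_erase ha
      rw [hrest a]
      have h1 := ht1 a haJ
      rw [thr_B hb] at h1
      have h2 := hB a haJ hb
      rcases hs with ⟨rfl, h3⟩ | ⟨rfl, h3⟩
      · simp only [if_true]
        push_cast at h2 ⊢
        linarith
      · have h4 : ¬ (l + 1 = l) := by omega
        simp only [h4, if_false]
        have h5 : ((r - 1 : ℕ) : ℝ) = (r : ℝ) - 1 := by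
          rw [Nat.cast_sub (by omega)]; simp
        rw [h5]
        push_cast at h1 h2 ⊢
        linarith
    · intro a ha hb
      have haJ := mem_of_mem_erase ha
      rw [hrest a]
      have h1 := ht1 a haJ
      rw [thr_A hb] at h1
      have h2 := hA a haJ hb
      push_cast at h2 ⊢
      linarith
  obtain ⟨F', W', hg, hd⟩ := ih _ _ _ _ hinst
  refine ⟨fun a => if a = b then Rb else F' a,
    fun a i => if a = b then (if i ∈ Rb then Wb i else ∅) else W' a i, ?_, ?_⟩
  · intro a ha
    by_cases hab : a = b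
    · subst hab
      simp only [if_true]
      refine ⟨?_, ?_, ?_, ?_, ?_⟩
      · intro i
        by_cases hi : i ∈ Rb
        · simp only [hi, if_true]
          by_cases hiy : i = y
          · subst hiy
            rw [hWby]; exact ⟨hPo, Set.inter_subset_left⟩
          · have : i ∈ S := by
              have := hRb hi
              rw [mem_insert] at this
              tauto
            rw [hWbS i this]; exact ⟨(hI i).1, subset_rfl⟩
        · simp only [hi, if_false]
          exact ⟨Set.ordConnected_empty, Set.empty_subset _⟩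
      · intro i hi
        simp [hi]
      · intro i hi
        have : i ∉ Rb := by
          intro h
          have := hRb h
          rw [mem_insert] at this
          rcases this with rfl | h'
          · exact hi hyM
          · exact hi (hSM h')
        simp [this]
      · intro hb
        have := hRbB hb
        refine ⟨this.1, this.2.trans (le_of_eq ?_)⟩
        exact sum_congr rfl fun i hi => by simp [hi]
      · intro hb
        have := hRbA hb
        refine ⟨this.1, this.2.trans (le_of_eq ?_)⟩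
        exact sum_congr rfl fun i hi => by simp [hi]
    · simp only [hab, if_false]
      obtain ⟨g1, g2, g3, g4, g5⟩ := hg a (mem_erase.2 ⟨hab, ha⟩)
      refine ⟨?_, g2, ?_, g4, g5⟩
      · intro i
        refine ⟨(g1 i).1, (g1 i).2.trans ?_⟩
        by_cases hi : i = y
        · subst hi; rw [hI'y]; exact Set.inter_subset_left
        · rw [hI'n i hi]
      · intro i hi
        exact g3 i (fun h => hi (mem_sdiff.1 h).1)
  · -- disjointness
    have key : ∀ a ∈ J, a ≠ b → ∀ i, Disjoint (if i ∈ Rb then Wb i else ∅) (W' a i) := by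
      intro a ha hab i
      obtain ⟨g1, g2, g3, g4, g5⟩ := hg a (mem_erase.2 ⟨hab, ha⟩)
      by_cases hi : i ∈ Rb
      · simp only [hi, if_true]
        by_cases hiy : i = y
        · subst hiy
          rw [hWby]
          refine Set.disjoint_of_subset_right ((g1 i).2.trans (le_of_eq hI'y)) ?_
          rw [Set.disjoint_left]
          intro x hx hx'
          exact absurd (Set.mem_Iic.1 hx.2) (not_le.2 (Set.mem_Ioi.1 hx'.2))
        · have hiS : i ∈ S := by
            have := hRb hi
            rw [mem_insert] at this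
            tauto
          rw [g3 i (fun h => (mem_sdiff.1 h).2 hiS)]
          exact Set.disjoint_empty _
      · simp [hi]
    intro a ha c hc hac i
    by_cases hab : a = b
    · have hcb : c ≠ b := fun h => hac (hab.trans h.symm)
      simp only [hab, if_true, hcb, if_false]
      exact key c hc hcb i
    · by_cases hcb : c = b
      · simp only [hab, if_false, hcb, if_true]
        exact (key a ha hab i).symm
      · simp only [hab, hcb, if_false]
        exact hd a (mem_erase.2 ⟨hab, ha⟩) c (mem_erase.2 ⟨hcb, hc⟩) hac i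

end

end Pool.Agent.Q122.Cake
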