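import Pool.Agent.Q122.Cake.Comb

set_option autoImplicit false

/-!
# Cutting one island: the first time at which somebody is satisfied
-/

namespace Pool.Agent.Q122.Cake

open Finset MeasureTheory

theorem continuous_left (f : ℝ → ℝ) (hf : Integrable f) (I : Set ℝ) (hI : MeasurableSet I) :
    Continuous (fun t : ℝ => ∫ x in I ∩ Set.Iic t, f x) := by
  have hg : Integrable (I.indicator f) := hf.indicator hI
  have e : (fun t : ℝ => ∫ x in I ∩ Set.Iic t, f x) =
      fun t : ℝ => (∫ x in Set.Iic (0 : ℝ), I.indicator f x) + ∫ x in (0 : ℝ)..t, I.indicator f x := by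
    funext t
    rw [← intervalIntegral.integral_Iic_sub_Iic hg.integrableOn hg.integrableOn]
    rw [setIntegral_indicator hI, setIntegral_indicator hI, Set.inter_comm I]
    ring
  rw [e]
  refine continuous_const.add ?_
  exact intervalIntegral.continuous_primitive (fun a b => hg.intervalIntegrable) 0

theorem cut {A : Type*} (J : Finset A) (hJ : J.Nonempty) (v : A → ℝ → ℝ)
    (hv : ∀ a, Integrable (v a)) (I : Set ℝ) (hI : I.OrdConnected) (l u : ℝ)
    (hlu : I ⊆ Set.Icc l u) (base θ : A → ℝ) (h0 : ∀ a ∈ J, base a < θ a)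
    (h1 : ∃ a ∈ J, θ a ≤ base a + ∫ x in I, v a x) :
    ∃ t : ℝ, (∀ a ∈ J, base a + ∫ x in I ∩ Set.Iic t, v a x ≤ θ a) ∧
      ∃ b ∈ J, θ b ≤ base b + ∫ x in I ∩ Set.Iic t, v b x := by
  classical
  set F : A → ℝ → ℝ := fun a t => base a + (∫ x in I ∩ Set.Iic t, v a x) - θ a with hF
  have hFc : ∀ a, Continuous (F a) := fun a =>
    (continuous_const.add (continuous_left (v a) (hv a) I hI.measurableSet)).sub continuous_const
  set G : ℝ → ℝ := fun t => J.sup' hJ (fun a => F a t) with hG
  have hGc : Continuous G := Continuous.finset_sup'_apply hJ (fun a _ => hFc a)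
  have hlo : G (l - 1) < 0 := by
    rw [hG]
    simp only
    rw [Finset.sup'_lt_iff]
    intro a ha
    have : I ∩ Set.Iic (l - 1) = ∅ := by
      ext x
      simp only [Set.mem_inter_iff, Set.mem_Iic, Set.mem_empty_iff_false, iff_false, not_and, not_le]
      intro hx
      have := (hlu hx).1
      linarith
    simp only [hF, this, Measure.restrict_empty, integral_zero_measure]
    have := h0 a ha
    linarith
  have hhi : 0 ≤ G (max l u) := by
    obtain ⟨a, ha, hθ⟩ := h1
    have : I ∩ Set.Iic (max l u) = I := by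
      rw [Set.inter_eq_left]
      intro x hx
      exact (hlu hx).2.trans (le_max_right _ _)
    have h2 : F a (max l u) ≤ G (max l u) := Finset.le_sup' (fun a => F a (max l u)) ha
    refine le_trans ?_ h2
    simp only [hF, this]
    linarith
  have hle : l - 1 ≤ max l u := by
    have := le_max_left l u
    linarith
  obtain ⟨t, _, ht⟩ := intermediate_value_Icc hle hGc.continuousOn ⟨hlo.le, hhi⟩
  refine ⟨t, ?_, ?_⟩
  · intro a ha
    have h2 : F a t ≤ G t := Finset.le_sup' (fun a => F a t) ha
    rw [ht] at h2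
    simp only [hF] at h2
    linarith
  · obtain ⟨b, hb, hbt⟩ := Finset.exists_mem_eq_sup' hJ (fun a => F a t)
    refine ⟨b, hb, ?_⟩
    have h3 : G t = F b t := hbt
    rw [ht] at h3
    simp only [hF] at h3
    linarith

end Pool.Agent.Q122.Cake
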