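import Pool.Agent.Q122.Cake.Match

set_option autoImplicit false
set_option linter.unusedSectionVars false

/-!
# The theorem on multicakes
-/

namespace Pool.Agent.Q122.Cake

open Finset MeasureTheory

theorem core {A ι : Type*} [DecidableEq A] [DecidableEq ι] [Infinite ι] (v : A → ℝ → ℝ)
    (hv : ∀ a, Integrable (v a)) (hv0 : ∀ a x, 0 ≤ v a x) (B : A → Prop) (l : ℕ) :
    ∀ (n r : ℕ) (J : Finset A) (M : Finset ι) (I : ι → Set ℝ),
      Inst v B l n r J M I → Good v B l J M I := by
  classical
  intro n
  induction n using Nat.strong_induction_on with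
  | _ n ih =>
    intro r J M I h
    have h' := h
    obtain ⟨hr, hJ, hM, hI, hB, hA⟩ := h'
    rcases Nat.lt_or_ge n 2 with hn | hn
    · have hn1 : n = 1 := by omega
      subst hn1
      have hr0 : r = 0 := by omega
      subst hr0
      refine ⟨fun _ => M, fun _ i => if i ∈ M then I i else ∅, ?_, ?_⟩
      · intro a ha
        refine ⟨?_, ?_, ?_, ?_, ?_⟩
        · intro i
          by_cases hi : i ∈ M
          · simp only [hi, if_true]; exact ⟨(hI i).1, subset_rfl⟩
          · simp only [hi, if_false]; exact ⟨Set.ordConnected_empty, Set.empty_subset _⟩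
        · intro i hi; simp [hi]
        · intro i hi; simp [hi]
        · intro hb
          refine ⟨(show M.card ≤ l + 1 by omega), ?_⟩
          have h1 := hB a ha hb
          have h2 : ∑ i ∈ M, val v a (if i ∈ M then I i else ∅) = ∑ i ∈ M, val v a (I i) :=
            sum_congr rfl fun i hi => by simp [hi]
          rw [h2]
          push_cast at h1
          linarith
        · intro hb
          refine ⟨(show M.card ≤ l + 2 by omega), ?_⟩
          have h1 := hA a ha hb
          have h2 : ∑ i ∈ M, val v a (if i ∈ M then I i else ∅) = ∑ i ∈ M, val v a (I i) :=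
            sum_congr rfl fun i hi => by simp [hi]
          rw [h2]
          push_cast at h1
          linarith
      · intro a ha b hb hab
        exact absurd (card_le_one.1 hJ.le a ha b hb) hab
    · obtain ⟨s, hs⟩ : ∃ s, (s = l ∧ r + 1 < n) ∨ (s = l + 1 ∧ r + 1 = n) := by
        rcases Nat.lt_or_ge (r + 1) n with h1 | h1
        · exact ⟨l, Or.inl ⟨rfl, h1⟩⟩
        · exact ⟨l + 1, Or.inr ⟨rfl, by omega⟩⟩
      by_cases hlow : ∃ S ⊆ M, S.card = s ∧ ∀ a ∈ J, ∑ i ∈ S, val v a (I i) < thr B s a
      · exact slide v hv hv0 B l n r J M I h s hn hs hlow (fun r' J' M' I' h' =>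
          ih (n - 1) (by omega) r' J' M' I' h')
      · push Not at hlow
        exact matchStep v hv0 B l n r J M I h s hs hlow (fun n' hn' r' J' M' I' h' =>
          ih n' hn' r' J' M' I' h')

/-- from at most `L` pieces with total value at least `L` one can choose at most `k ≤ L` pieces
with total value at least `k` -/
theorem choose_best {ι : Type*} [DecidableEq ι] (w : ι → ℝ) (F : Finset ι) (L k : ℕ) (hk : k ≤ L)
    (hF : F.card ≤ L) (hs : (L : ℝ) ≤ ∑ i ∈ F, w i) :
    ∃ R ⊆ F, R.card ≤ k ∧ (k : ℝ) ≤ ∑ i ∈ R, w i := by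
  rcases Nat.lt_or_ge k F.card with h | h
  · obtain ⟨R, hR, hRc, hRs⟩ := avg_subset w k F.card F rfl h.le
    refine ⟨R, hR, hRc.le, ?_⟩
    have hF0 : (0 : ℝ) < F.card := by
      have : 0 < F.card := by omega
      exact_mod_cast this
    have h1 : (k : ℝ) * (F.card : ℝ) ≤ (k : ℝ) * ∑ i ∈ F, w i :=
      mul_le_mul_of_nonneg_left ((by exact_mod_cast hF : (F.card : ℝ) ≤ L).trans hs)
        (Nat.cast_nonneg _)
    have h2 : (F.card : ℝ) * k ≤ F.card * ∑ i ∈ R, w i := by
      rw [mul_comm]
      exact h1.trans hRs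
    exact le_of_mul_le_mul_left h2 hF0
  · refine ⟨F, Subset.refl _, h, ?_⟩
    exact (by exact_mod_cast hk : (k : ℝ) ≤ L).trans hs

end Pool.Agent.Q122.Cake
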