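import Pool.Agent.Q122.Cake.Core

set_option autoImplicit false
set_option linter.unusedSectionVars false

/-!
# The second step: every set of `s` islands satisfies somebody
-/

namespace Pool.Agent.Q122.Cake

open Finset MeasureTheory

variable {A ι : Type*} [DecidableEq A] [DecidableEq ι] [Infinite ι]

variable (v : A → ℝ → ℝ) (hv0 : ∀ a x, 0 ≤ v a x)

theorem card_lt_fin (n r : ℕ) (h : r + 1 ≤ n) :
    ((univ : Finset (Fin n)).filter (fun k => k.val < r + 1)).card = r + 1 := by
  have e : ((univ : Finset (Fin n)).filter (fun k => k.val < r + 1)) =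
      (univ : Finset (Fin (r + 1))).map (Fin.castLEEmb h) := by
    ext k
    simp only [mem_filter, mem_univ, true_and, mem_map, Fin.castLEEmb_apply]
    constructor
    · intro hk
      exact ⟨⟨k.val, hk⟩, by ext; simp⟩
    · rintro ⟨a, rfl⟩
      have := a.2
      simp only [Fin.val_castLE]
      omega
  rw [e, card_map, card_univ, Fintype.card_fin]

include hv0 in
theorem matchStep (B : A → Prop) (l n r : ℕ) (J : Finset A) (M : Finset ι) (I : ι → Set ℝ)
    (h : Inst v B l n r J M I) (s : ℕ)
    (hs : (s = l ∧ r + 1 < n) ∨ (s = l + 1 ∧ r + 1 = n))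
    (hno : ∀ S ⊆ M, S.card = s → ∃ a ∈ J, thr B s a ≤ ∑ i ∈ S, val v a (I i))
    (ih : ∀ n' < n, ∀ (r' : ℕ) (J' : Finset A) (M' : Finset ι) (I' : ι → Set ℝ),
      Inst v B l n' r' J' M' I' → Good v B l J' M' I') : Good v B l J M I := by
  classical
  obtain ⟨hr, hJ, hM, hI, hB, hA⟩ := h
  set c : Fin n → ℕ := fun k => if k.val < r + 1 then l + 1 else l with hc
  have hcsum : ∀ Y : Finset (Fin n), ∑ k ∈ Y, c k =
      Y.card * l + (Y.filter (fun k => k.val < r + 1)).card := by
    intro Y
    have : ∀ k, c k = l + (if k.val < r + 1 then 1 else 0) := by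
      intro k
      rw [hc]
      simp only
      split_ifs <;> rfl
    rw [sum_congr rfl fun k _ => this k, sum_add_distrib, sum_const, smul_eq_mul, card_filter]
  have hctot : ∑ k, c k = M.card := by
    rw [hcsum, card_univ, Fintype.card_fin, card_lt_fin n r hr, hM]; ring
  have hcs : ∀ k, s ≤ c k := by
    intro k
    rw [hc]
    simp only
    have := k.2
    rcases hs with ⟨rfl, _⟩ | ⟨rfl, h2⟩
    · split_ifs <;> omega
    · have : k.val < r + 1 := by omega
      simp [this]
  have hcl : ∀ k, c k ≤ l + 1 := by
    intro k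
    rw [hc]
    simp only
    split_ifs <;> omega
  obtain ⟨Y, hY, hYd⟩ := disjoint_family n c M hctot.le
  set N : Fin n → Finset A := fun k => J.filter (fun a => thr B s a ≤ ∑ i ∈ Y k, val v a (I i))
    with hN
  have hNne : ∀ k, (N k).Nonempty := by
    intro k
    obtain ⟨T, hT, hTc⟩ := exists_subset_card_eq ((hcs k).trans (hY k).2.ge)
    obtain ⟨a, ha, ha2⟩ := hno T (hT.trans (hY k).1) hTc
    refine ⟨a, ?_⟩
    rw [hN, mem_filter]
    exact ⟨ha, ha2.trans (sum_le_sum_of_subset_of_nonneg hT
      fun i _ _ => val_nonneg v hv0 a (I i))⟩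
  have : Nonempty (Fin n) := ⟨⟨0, by omega⟩⟩
  obtain ⟨Ym, f, hYne, hinj, hfN, henv⟩ := envy_free N J (fun k => filter_subset _ _) hNne
    (by rw [hJ, Fintype.card_fin])
  set J1 := Ym.image f with hJ1
  have hJ1J : J1 ⊆ J := by
    intro a ha
    rw [hJ1, mem_image] at ha
    obtain ⟨k, hk, rfl⟩ := ha
    exact (mem_filter.1 (hfN k hk)).1
  have hJ1c : J1.card = Ym.card := card_image_of_injOn hinj
  have hxn : Ym.card ≤ n := by
    have := card_le_card hJ1J
    omega
  have hx1 : 1 ≤ Ym.card := card_pos.2 hYne
  -- inverse of `f`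
  have hinv : ∀ a, a ∈ J1 → ∃ k ∈ Ym, f k = a := fun a ha => by
    rw [hJ1, mem_image] at ha
    exact ha
  choose! g hgY hgf using hinv
  -- the part of the matched agents
  have matched : ∀ a ∈ J1, (B a → (Y (g a)).card ≤ l + 1 ∧
        (l + 1 : ℝ) ≤ ∑ i ∈ Y (g a), val v a (I i)) ∧
      (¬ B a → (Y (g a)).card ≤ l + 2 ∧ (1 : ℝ) ≤ ∑ i ∈ Y (g a), val v a (I i)) := by
    intro a ha
    have h1 : a ∈ N (g a) := by
      have := hfN (g a) (hgY a ha)
      rwa [hgf a ha] at this
    rw [hN, mem_filter] at h1
    have hcard : (Y (g a)).card ≤ l + 1 := (hY (g a)).2.le.trans (hcl _)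
    refine ⟨fun hb => ⟨hcard, ?_⟩, fun hb => ⟨by omega, ?_⟩⟩
    · have h2 := h1.2
      rw [thr_B hb] at h2
      refine le_trans ?_ h2
      rcases hs with ⟨rfl, _⟩ | ⟨rfl, _⟩
      · exact le_refl _
      · push_cast; linarith
    · have h2 := h1.2
      rw [thr_A hb] at h2
      exact h2
  set U := Ym.biUnion Y with hU
  have hUM : U ⊆ M := by
    intro i hi
    rw [hU, mem_biUnion] at hi
    obtain ⟨k, _, hk⟩ := hi
    exact (hY k).1 hk
  have hpd : Set.PairwiseDisjoint (Ym : Set (Fin n)) Y := fun k _ k' _ hkk => hYd hkk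
  have hUc : U.card = Ym.card * l + (Ym.filter (fun k => k.val < r + 1)).card := by
    rw [hU, card_biUnion (fun k _ k' _ hkk => hYd hkk), ← hcsum]
    exact sum_congr rfl fun k _ => (hY k).2
  set x1 := (Ym.filter (fun k => k.val < r + 1)).card with hx1d
  set x2 := (Ym.filter (fun k => ¬ k.val < r + 1)).card with hx2d
  have hxx : x1 + x2 = Ym.card := by
    rw [hx1d, hx2d]
    exact card_filter_add_card_filter_not (s := Ym) (fun k => k.val < r + 1)
  have hx1r : x1 ≤ r + 1 := by
    have := card_le_card (filter_subset_filter (fun k : Fin n => k.val < r + 1) (subset_univ Ym))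
    rw [card_lt_fin n r hr] at this
    exact this
  have hx2r : x2 + (r + 1) ≤ n := by
    have e : ((univ : Finset (Fin n)).filter (fun k => k.val < r + 1)).card +
      ((univ : Finset (Fin n)).filter (fun k => ¬ k.val < r + 1)).card = n := by
      rw [card_filter_add_card_filter_not, card_univ, Fintype.card_fin]
    rw [card_lt_fin n r hr] at e
    have : x2 ≤ ((univ : Finset (Fin n)).filter (fun k => ¬ k.val < r + 1)).card := by
      rw [hx2d]
      exact card_le_card (filter_subset_filter _ (subset_univ _))
    omega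
  -- the remaining agents
  have hJ2c : (J \ J1).card = n - Ym.card := by
    rw [card_sdiff_of_subset hJ1J, hJ, hJ1c]
  have hMUc : (M \ U).card = n * l + r + 1 - (Ym.card * l + x1) := by
    rw [card_sdiff_of_subset hUM, hM, hUc]
  -- solution for the remaining agents
  have rest : Good v B l (J \ J1) (M \ U) I := by
    rcases Nat.eq_or_lt_of_le hxn with hfull | hlt
    · have : J \ J1 = ∅ := by
        rw [← card_eq_zero, hJ2c]; omega
      rw [this]
      exact ⟨fun _ => ∅, fun _ _ => ∅, fun a ha => absurd ha (notMem_empty a),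
        fun a ha => absurd ha (notMem_empty a)⟩
    · have hnl : n * l = (n - Ym.card) * l + Ym.card * l := by
        rw [← Nat.add_mul, Nat.sub_add_cancel hxn]
      have hlose : ∀ a ∈ J \ J1, ∑ i ∈ M \ U, val v a (I i) ≥
          (∑ i ∈ M, val v a (I i)) - Ym.card * thr B s a := by
        intro a ha
        rw [mem_sdiff] at ha
        have h1 : ∑ i ∈ M \ U, val v a (I i) + ∑ i ∈ U, val v a (I i) = ∑ i ∈ M, val v a (I i) :=
          sum_sdiff hUM
        have h2 : ∑ i ∈ U, val v a (I i) = ∑ k ∈ Ym, ∑ i ∈ Y k, val v a (I i) :=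
          sum_biUnion hpd
        have h3 : ∑ k ∈ Ym, ∑ i ∈ Y k, val v a (I i) ≤ ∑ _k ∈ Ym, thr B s a := by
          refine sum_le_sum fun k hk => ?_
          by_contra hcon
          push Not at hcon
          have : a ∈ N k := by
            rw [hN, mem_filter]; exact ⟨ha.1, hcon.le⟩
          exact ha.2 (henv k hk this)
        rw [sum_const, nsmul_eq_mul] at h3
        linarith
      by_cases hx : x1 ≤ r
      · have hinst : Inst v B l (n - Ym.card) (r - x1) (J \ J1) (M \ U) I := by
          refine ⟨by omega, hJ2c, ?_, hI, ?_, ?_⟩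
          · rw [hMUc]; omega
          · intro a ha hb
            have h1 := hlose a ha
            have h2 := hB a (mem_sdiff.1 ha).1 hb
            rw [thr_B hb] at h1
            have h4 : ((r - x1 : ℕ) : ℝ) = (r : ℝ) - x1 := Nat.cast_sub hx
            have h5 : ((n - Ym.card : ℕ) : ℝ) = (n : ℝ) - Ym.card := Nat.cast_sub hxn
            rw [h4, h5]
            have hx1' : (0 : ℝ) ≤ x1 := Nat.cast_nonneg _
            rcases hs with ⟨rfl, h3⟩ | ⟨rfl, h3⟩
            · nlinarith
            · have : Ym.card = x1 := by omega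
              push_cast at h1
              rw [this] at h1 ⊢
              nlinarith
          · intro a ha hb
            have h1 := hlose a ha
            have h2 := hA a (mem_sdiff.1 ha).1 hb
            rw [thr_A hb] at h1
            have h5 : ((n - Ym.card : ℕ) : ℝ) = (n : ℝ) - Ym.card := Nat.cast_sub hxn
            rw [h5]
            linarith
        exact ih _ (by omega) _ _ _ _ hinst
      · have hxr : x1 = r + 1 := by omega
        obtain ⟨i0, hi0⟩ := Infinite.exists_notMem_finset M
        set I' : ι → Set ℝ := Function.update I i0 ∅ with hI'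
        have hI'0 : I' i0 = ∅ := by simp [hI']
        have hI'n : ∀ i, i ≠ i0 → I' i = I i := fun i hi => by simp [hI', hi]
        have hi0' : i0 ∉ M \ U := fun h => hi0 (mem_sdiff.1 h).1
        have hsum : ∀ a, ∑ i ∈ insert i0 (M \ U), val v a (I' i) =
            ∑ i ∈ M \ U, val v a (I i) := by
          intro a
          rw [sum_insert hi0', hI'0, val_empty, zero_add]
          refine sum_congr rfl fun i hi => ?_
          rw [hI'n i (fun h => hi0' (h ▸ hi))]
        have hcaseI : s = l ∧ r + 1 < n := by
          rcases hs with h | ⟨_, h⟩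
          · exact h
          · exfalso; omega
        have hinst : Inst v B l (n - Ym.card) 0 (J \ J1) (insert i0 (M \ U)) I' := by
          refine ⟨by omega, hJ2c, ?_, ?_, ?_, ?_⟩
          · rw [card_insert_of_notMem hi0', hMUc]; omega
          · intro i
            by_cases hi : i = i0
            · subst hi
              rw [hI'0]
              exact ⟨Set.ordConnected_empty, 0, 0, Set.empty_subset _⟩
            · rw [hI'n i hi]; exact hI i
          · intro a ha hb
            rw [hsum a]
            have h1 := hlose a ha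
            have h2 := hB a (mem_sdiff.1 ha).1 hb
            rw [thr_B hb, hcaseI.1] at h1
            have h5 : ((n - Ym.card : ℕ) : ℝ) = (n : ℝ) - Ym.card := Nat.cast_sub hxn
            rw [h5]
            have hr0 : (0 : ℝ) ≤ r := Nat.cast_nonneg _
            push_cast
            nlinarith
          · intro a ha hb
            rw [hsum a]
            have h1 := hlose a ha
            have h2 := hA a (mem_sdiff.1 ha).1 hb
            rw [thr_A hb] at h1
            have h5 : ((n - Ym.card : ℕ) : ℝ) = (n : ℝ) - Ym.card := Nat.cast_sub hxn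
            rw [h5]
            linarith
        obtain ⟨F, W, hg, hd⟩ := ih _ (by omega) _ _ _ _ hinst
        refine ⟨F, W, ?_, hd⟩
        intro a ha
        obtain ⟨g1, g2, g3, g4, g5⟩ := hg a ha
        refine ⟨?_, g2, ?_, g4, g5⟩
        · intro i
          refine ⟨(g1 i).1, (g1 i).2.trans ?_⟩
          by_cases hi : i = i0
          · subst hi; rw [hI'0]; exact Set.empty_subset _
          · rw [hI'n i hi]
        · intro i hi
          by_cases hii : i = i0
          · have := (g1 i).2
            rw [hii, hI'0] at this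
            rw [hii]
            exact Set.subset_empty_iff.1 this
          · exact g3 i (fun h => by
              rw [mem_insert] at h
              rcases h with h | h
              · exact hii h
              · exact hi h)
  obtain ⟨F', W', hg, hd⟩ := rest
  refine ⟨fun a => if a ∈ J1 then Y (g a) else F' a,
    fun a i => if a ∈ J1 then (if i ∈ Y (g a) then I i else ∅) else W' a i, ?_, ?_⟩
  · intro a ha
    by_cases ha1 : a ∈ J1
    · simp only [ha1, if_true]
      obtain ⟨m1, m2⟩ := matched a ha1
      refine ⟨?_, ?_, ?_, ?_, ?_⟩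
      · intro i
        by_cases hi : i ∈ Y (g a)
        · simp only [hi, if_true]; exact ⟨(hI i).1, subset_rfl⟩
        · simp only [hi, if_false]; exact ⟨Set.ordConnected_empty, Set.empty_subset _⟩
      · intro i hi; simp [hi]
      · intro i hi
        have : i ∉ Y (g a) := fun h => hi ((hY _).1 h)
        simp [this]
      · intro hb
        refine ⟨(m1 hb).1, (m1 hb).2.trans (le_of_eq ?_)⟩
        exact sum_congr rfl fun i hi => by simp [hi]
      · intro hb
        refine ⟨(m2 hb).1, (m2 hb).2.trans (le_of_eq ?_)⟩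
        exact sum_congr rfl fun i hi => by simp [hi]
    · simp only [ha1, if_false]
      obtain ⟨g1, g2, g3, g4, g5⟩ := hg a (mem_sdiff.2 ⟨ha, ha1⟩)
      exact ⟨g1, g2, fun i hi => g3 i (fun h => hi (mem_sdiff.1 h).1), g4, g5⟩
  · have key : ∀ a ∈ J1, ∀ b ∈ J, b ∉ J1 → ∀ i,
        Disjoint (if i ∈ Y (g a) then I i else ∅) (W' b i) := by
      intro a ha b hb hb1 i
      obtain ⟨g1, g2, g3, g4, g5⟩ := hg b (mem_sdiff.2 ⟨hb, hb1⟩)
      by_cases hi : i ∈ Y (g a)
      · have : i ∉ M \ U := fun h => (mem_sdiff.1 h).2 (by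
          rw [hU, mem_biUnion]; exact ⟨g a, hgY a ha, hi⟩)
        rw [g3 i this]
        exact Set.disjoint_empty _
      · simp [hi]
    intro a ha b hb hab i
    by_cases ha1 : a ∈ J1
    · by_cases hb1 : b ∈ J1
      · simp only [ha1, hb1, if_true]
        by_cases hi : i ∈ Y (g a)
        · have hne : g a ≠ g b := by
            intro h
            apply hab
            rw [← hgf a ha1, ← hgf b hb1, h]
          have : i ∉ Y (g b) := fun h => (disjoint_left.1 (hYd hne)) hi h
          simp [this]
        · simp [hi]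
      · simp only [ha1, hb1, if_true, if_false]
        exact key a ha1 b hb hb1 i
    · by_cases hb1 : b ∈ J1
      · simp only [ha1, hb1, if_true, if_false]
        exact (key b hb1 a ha ha1 i).symm
      · simp only [ha1, hb1, if_false]
        exact hd a (mem_sdiff.2 ⟨ha, ha1⟩) b (mem_sdiff.2 ⟨hb, hb1⟩) hab i

end Pool.Agent.Q122.Cake
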